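import Pool.Agent.Lib_helper99.FGA.Wanted

/-! Block A08 of FGA (helper65): the tail of the singular series; first lemmas from FGP_P14t (helper61). -/

set_option autoImplicit false

namespace Pool.Agent.FGA

open Finset Pool.Agent.Var35 Pool.Agent.Var73 Pool.Agent.PV Pool.Agent.FGP
open scoped ArithmeticFunction ArithmeticFunction.Moebius

theorem a08_cR (r k : ℕ) : cR r k = (ram r (k : ℤ)).re := by
  unfold cR ram Cd
  rw [Complex.re_sum]
  refine sum_congr rfl fun c _ => ?_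
  unfold e
  rw [Complex.exp_ofReal_mul_I_re]
  congr 1
  push_cast
  ring

theorem a08_mu (c c' : ℕ) (h : Squarefree (c * c')) : μ c' = μ (c * c') * μ c := by
  have hc : Nat.Coprime c c' := Nat.coprime_of_squarefree_mul h
  rw [ArithmeticFunction.isMultiplicative_moebius.map_mul_of_coprime hc]
  have h1 : μ c ^ 2 = 1 :=
    ArithmeticFunction.moebius_sq_eq_one_of_squarefree (h.squarefree_of_dvd (Dvd.intro c' rfl))
  calc μ c' = μ c ^ 2 * μ c' := by rw [h1, one_mul]
    _ = μ c * μ c' * μ c := by ring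

theorem a08_tot (g : ℕ) (hg : Squarefree g) :
    (Nat.totient g : ℝ) = ∏ p ∈ g.primeFactors, ((p : ℝ) - 1) := by
  have h1 := Nat.totient_mul_prod_primeFactors g
  rw [Nat.prod_primeFactors_of_squarefree hg, mul_comm] at h1
  have h2 := Nat.eq_of_mul_eq_mul_left (Nat.pos_of_ne_zero hg.ne_zero) h1
  rw [h2, Nat.cast_prod]
  refine prod_congr rfl fun p hp => ?_
  rw [Nat.cast_sub (Nat.prime_of_mem_primeFactors hp).one_lt.le, Nat.cast_one]

theorem a08_ram (r k : ℕ) (hr : Squarefree r) :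
    ‖ram r (k : ℤ)‖ ≤ Nat.totient (Nat.gcd r k) := by
  have hr0 : r ≠ 0 := hr.ne_zero
  have hg0 : Nat.gcd r k ≠ 0 := Nat.gcd_ne_zero_left hr0
  have h1 : ram r (k : ℤ) =
      ((μ r : ℤ) : ℂ) * ∑ d ∈ (Nat.gcd r k).divisors, ((μ d : ℤ) : ℂ) * (d : ℂ) := by
    rw [ram_eq r (Nat.one_le_iff_ne_zero.2 hr0)]
    obtain ⟨F, hF⟩ : ∃ F : ℕ → ℂ, ∀ c : ℕ, F c = ((μ (r / c) : ℤ) : ℂ) *
          (if ((c : ℕ) : ℤ) ∣ (k : ℤ) then ((c : ℕ) : ℂ) else 0) := ⟨_, fun _ => rfl⟩
    have h2 : ∑ d ∈ r.divisors, ((μ d : ℤ) : ℂ) *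
        (if ((r / d : ℕ) : ℤ) ∣ (k : ℤ) then ((r / d : ℕ) : ℂ) else 0) =
        ∑ d ∈ r.divisors, F (r / d) := by
      refine sum_congr rfl fun d hd => ?_
      rw [hF, Nat.div_div_self (Nat.dvd_of_mem_divisors hd) hr0]
    rw [h2, Nat.sum_div_divisors r F, mul_sum]
    simp only [hF]
    have h3 : (Nat.gcd r k).divisors = r.divisors.filter (fun c => c ∣ k) := by
      ext c
      rw [mem_filter, Nat.mem_divisors, Nat.mem_divisors, Nat.dvd_gcd_iff]
      constructor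
      · rintro ⟨⟨a, b⟩, -⟩
        exact ⟨⟨a, hr0⟩, b⟩
      · rintro ⟨⟨a, -⟩, b⟩
        exact ⟨⟨a, b⟩, hg0⟩
    rw [h3, sum_filter]
    refine sum_congr rfl fun c hc => ?_
    obtain ⟨c', hc'⟩ := Nat.dvd_of_mem_divisors hc
    have hc0 : 0 < c := Nat.pos_of_mem_divisors hc
    have h4 : ((c : ℤ) ∣ (k : ℤ)) ↔ c ∣ k := Int.natCast_dvd_natCast
    by_cases h5 : c ∣ k
    · rw [if_pos (h4.2 h5), if_pos h5]
      have h6 : r / c = c' := by rw [hc', Nat.mul_div_cancel_left _ hc0]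
      rw [h6, a08_mu c c' (hc' ▸ hr), ← hc']
      push_cast
      ring
    · rw [if_neg (fun h => h5 (h4.1 h)), if_neg h5, mul_zero]
  have h7 := (ArithmeticFunction.isMultiplicative_id.natCast
    (R := ℂ)).prodPrimeFactors_one_sub_of_squarefree
      (n := Nat.gcd r k) _ (hr.squarefree_of_dvd (Nat.gcd_dvd_left r k))
  have h8 : ∑ d ∈ (Nat.gcd r k).divisors, ((μ d : ℤ) : ℂ) * (d : ℂ) =
      ∏ p ∈ (Nat.gcd r k).primeFactors, (1 - (p : ℂ)) := by
    refine Eq.trans ?_ (h7.symm.trans ?_)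
    · refine sum_congr rfl fun d _ => ?_
      simp
    · refine prod_congr rfl fun p _ => ?_
      simp
  rw [h1, h8, norm_mul, norm_prod]
  have h9 : ‖((μ r : ℤ) : ℂ)‖ ≤ 1 := by
    rw [Complex.norm_intCast]
    exact_mod_cast ArithmeticFunction.abs_moebius_le_one (n := r)
  have h10 : ∏ p ∈ (Nat.gcd r k).primeFactors, ‖1 - (p : ℂ)‖ = Nat.totient (Nat.gcd r k) := by
    rw [a08_tot _ (hr.squarefree_of_dvd (Nat.gcd_dvd_left r k))]
    refine prod_congr rfl fun p hp => ?_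
    have hp1 : 1 ≤ p := (Nat.prime_of_mem_primeFactors hp).one_lt.le
    have : (1 : ℂ) - (p : ℂ) = ((1 - (p : ℝ) : ℝ) : ℂ) := by push_cast; rfl
    have hp2 : (1 : ℝ) ≤ p := by exact_mod_cast hp1
    rw [this, Complex.norm_real, Real.norm_eq_abs, abs_of_nonpos (by linarith)]
    ring
  rw [h10]
  exact mul_le_of_le_one_left (Nat.cast_nonneg _) h9

/-- the two weights -/
noncomputable def a08_w (g : ℕ) : ℝ := Real.sqrt g / Nat.totient g

noncomputable def a08_v (m : ℕ) : ℝ := Real.sqrt m / (Nat.totient m : ℝ) ^ 2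

theorem a08_w0 (g : ℕ) : 0 ≤ a08_w g := div_nonneg (Real.sqrt_nonneg _) (Nat.cast_nonneg _)

theorem a08_v0 (m : ℕ) : 0 ≤ a08_v m := div_nonneg (Real.sqrt_nonneg _) (sq_nonneg _)

theorem a08_term' (K g m : ℕ) (c : ℝ) (hK : 1 ≤ K) (hr : K ≤ g * m) (hsq : Squarefree (g * m))
    (hc : |c| ≤ Nat.totient g) :
    |mr (g * m) ^ 2 * c| ≤ 1 / Real.sqrt K * (a08_w g * a08_v m) := by
  have hr0 : 0 < g * m := by omega
  have hg0 : 0 < g := Nat.pos_of_ne_zero fun h => by rw [h, zero_mul] at hr0; omega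
  have hm0 : 0 < m := Nat.pos_of_ne_zero fun h => by rw [h, mul_zero] at hr0; omega
  have hcop : Nat.Coprime g m := Nat.coprime_of_squarefree_mul hsq
  have hfg : (0 : ℝ) < Nat.totient g := by exact_mod_cast Nat.totient_pos.2 hg0
  have hfm : (0 : ℝ) < Nat.totient m := by exact_mod_cast Nat.totient_pos.2 hm0
  have h2 : mr (g * m) ^ 2 = 1 / ((Nat.totient g : ℝ) * Nat.totient m) ^ 2 := by
    unfold mr
    rw [div_pow, Nat.totient_mul hcop]
    push_cast
    congr 1
    have := ArithmeticFunction.moebius_sq_eq_one_of_squarefree hsq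
    exact_mod_cast this
  have hK0 : (0 : ℝ) < Real.sqrt K := Real.sqrt_pos.2 (by exact_mod_cast hK)
  have h3 : 1 ≤ 1 / Real.sqrt K * (Real.sqrt g * Real.sqrt m) := by
    rw [← Real.sqrt_mul (Nat.cast_nonneg g), one_div_mul_eq_div, le_div_iff₀ hK0, one_mul]
    exact Real.sqrt_le_sqrt (by exact_mod_cast hr)
  rw [abs_mul, abs_of_nonneg (sq_nonneg _), h2]
  unfold a08_w a08_v
  calc 1 / ((Nat.totient g : ℝ) * Nat.totient m) ^ 2 * |c|
      ≤ 1 / ((Nat.totient g : ℝ) * Nat.totient m) ^ 2 * Nat.totient g :=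
        mul_le_mul_of_nonneg_left hc (by positivity)
    _ = 1 / (Nat.totient g * (Nat.totient m : ℝ) ^ 2) * 1 := by field_simp
    _ ≤ 1 / (Nat.totient g * (Nat.totient m : ℝ) ^ 2) *
          (1 / Real.sqrt K * (Real.sqrt g * Real.sqrt m)) :=
        mul_le_mul_of_nonneg_left h3 (by positivity)
    _ = _ := by field_simp

theorem a08_term (K r h : ℕ) (hK : 1 ≤ K) (hr : K ≤ r) (hsq : Squarefree r) :
    |mr r ^ 2 * cR r h| ≤
      1 / Real.sqrt K * (a08_w (Nat.gcd r h) * a08_v (r / Nat.gcd r h)) := by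
  have h1 : |cR r h| ≤ Nat.totient (Nat.gcd r h) := by
    rw [a08_cR]
    exact (Complex.abs_re_le_norm _).trans (a08_ram r h hsq)
  have h2 : Nat.gcd r h * (r / Nat.gcd r h) = r := Nat.mul_div_cancel' (Nat.gcd_dvd_left r h)
  have h3 := a08_term' K (Nat.gcd r h) (r / Nat.gcd r h) (cR r h) hK (by rw [h2]; exact hr)
    (by rw [h2]; exact hsq) h1
  rw [h2] at h3
  exact h3

theorem a08_v_le (m : ℕ) : a08_v m ≤ 289 * (m : ℝ) ^ (-(5 / 4) : ℝ) := by
  rcases Nat.eq_zero_or_pos m with h | hm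
  · subst h
    simp only [a08_v, Nat.cast_zero, Real.sqrt_zero, zero_div]
    positivity
  · have hm1 : (1 : ℝ) ≤ m := by exact_mod_cast hm
    have hm0 : (0 : ℝ) < m := by linarith
    have hphi : (0 : ℝ) < Nat.totient m := by exact_mod_cast Nat.totient_pos.2 hm
    set t := (m : ℝ) ^ (1 / 8 : ℝ) with ht
    have ht1 : 1 ≤ t := Real.one_le_rpow hm1 (by norm_num)
    have ht0 : 0 < t := by linarith
    have ht8 : t ^ 8 = m := by
      rw [ht, ← Real.rpow_natCast, ← Real.rpow_mul hm0.le]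
      norm_num
    have hlog : Real.log m = 8 * Real.log t := by
      rw [← ht8, Real.log_pow]
      norm_num
    have hlt : Real.log t ≤ t - 1 := Real.log_le_sub_one_of_pos ht0
    have h1 := Pool.Agent.Var35.totient_ge m hm
    have h2 : (m : ℝ) ≤ 17 * t * Nat.totient m := by
      refine h1.trans (mul_le_mul_of_nonneg_right ?_ hphi.le)
      rw [hlog]
      linarith
    have h3 : t ^ 7 ≤ 17 * Nat.totient m := by
      have : t ^ 7 * t ≤ 17 * Nat.totient m * t := by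
        calc t ^ 7 * t = m := by rw [← ht8]; ring
          _ ≤ 17 * t * Nat.totient m := h2
          _ = _ := by ring
      exact le_of_mul_le_mul_right this ht0
    have hs : Real.sqrt m = t ^ 4 := by
      rw [← ht8, show t ^ 8 = (t ^ 4) ^ 2 by ring]
      exact Real.sqrt_sq (by positivity)
    have hr : (m : ℝ) ^ (-(5 / 4) : ℝ) = 1 / t ^ 10 := by
      rw [Real.rpow_neg hm0.le, one_div]
      congr 1
      rw [ht, ← Real.rpow_natCast, ← Real.rpow_mul hm0.le]
      norm_num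
    have h4 : (t ^ 7) ^ 2 ≤ (17 * (Nat.totient m : ℝ)) ^ 2 := pow_le_pow_left₀ (by positivity) h3 2
    unfold a08_v
    rw [hs, hr, mul_one_div, div_le_div_iff₀ (by positivity) (by positivity)]
    calc t ^ 4 * t ^ 10 = (t ^ 7) ^ 2 := by ring
      _ ≤ (17 * (Nat.totient m : ℝ)) ^ 2 := h4
      _ = 289 * (Nat.totient m : ℝ) ^ 2 := by ring

/-- the constant -/
noncomputable def a08_C : ℝ := 289 * ∑' m : ℕ, (m : ℝ) ^ (-(5 / 4) : ℝ)

theorem a08_C0 : 0 ≤ a08_C :=
  mul_nonneg (by norm_num) (tsum_nonneg fun m => Real.rpow_nonneg (Nat.cast_nonneg _) _)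

theorem a08_vsum (s : Finset ℕ) : ∑ m ∈ s, a08_v m ≤ a08_C := by
  unfold a08_C
  refine (sum_le_sum fun m _ => a08_v_le m).trans ?_
  rw [← mul_sum]
  refine mul_le_mul_of_nonneg_left ?_ (by norm_num)
  exact (Real.summable_nat_rpow.2 (by norm_num)).sum_le_tsum _
    (fun n _ => Real.rpow_nonneg (Nat.cast_nonneg _) _)

theorem a08_wsum (h : ℕ) :
    ∑ g ∈ h.divisors.filter Squarefree, a08_w g ≤ ks h ^ 2 := by
  classical
  have h0 : ∀ p ∈ h.primeFactors, (2 : ℝ) ≤ p := fun p hp => by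
    exact_mod_cast (Nat.prime_of_mem_primeFactors hp).two_le
  have h1 : ∀ g ∈ h.divisors.filter Squarefree, a08_w g =
      ∏ p ∈ g.primeFactors, (Real.sqrt p / ((p : ℝ) - 1)) := by
    intro g hg
    rw [mem_filter] at hg
    unfold a08_w
    rw [prod_div_distrib, ← a08_tot g hg.2]
    congr 1
    have h2 : (g : ℝ) = ∏ p ∈ g.primeFactors, (p : ℝ) := by
      rw [← Nat.cast_prod, Nat.prod_primeFactors_of_squarefree hg.2]
    conv_lhs => rw [h2]
    rw [Real.sqrt_prod _ (fun p _ => Nat.cast_nonneg p)]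
  have h2 : Set.InjOn Nat.primeFactors (↑(h.divisors.filter Squarefree) : Set ℕ) := by
    intro a ha b hb hab
    rw [mem_coe, mem_filter] at ha hb
    rw [← Nat.prod_primeFactors_of_squarefree ha.2, ← Nat.prod_primeFactors_of_squarefree hb.2,
      hab]
  have h3 : ∑ g ∈ h.divisors.filter Squarefree, a08_w g =
      ∑ S ∈ (h.divisors.filter Squarefree).image Nat.primeFactors,
        ∏ p ∈ S, (Real.sqrt p / ((p : ℝ) - 1)) := by
    rw [sum_image h2]
    exact sum_congr rfl h1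
  have h4 : ∑ S ∈ (h.divisors.filter Squarefree).image Nat.primeFactors,
        ∏ p ∈ S, (Real.sqrt p / ((p : ℝ) - 1)) ≤
      ∑ S ∈ h.primeFactors.powerset, ∏ p ∈ S, (Real.sqrt p / ((p : ℝ) - 1)) := by
    refine sum_le_sum_of_subset_of_nonneg ?_ ?_
    · intro S hS
      rw [mem_image] at hS
      obtain ⟨g, hg, rfl⟩ := hS
      rw [mem_filter, Nat.mem_divisors] at hg
      rw [mem_powerset]
      exact Nat.primeFactors_mono hg.1.1 hg.1.2
    · intro S hS _
      rw [mem_powerset] at hS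
      refine prod_nonneg fun p hp => div_nonneg (Real.sqrt_nonneg _) ?_
      linarith [h0 p (hS hp)]
  rw [h3]
  refine h4.trans ?_
  rw [← prod_one_add]
  unfold ks
  rw [← prod_pow]
  refine prod_le_prod (fun p hp => ?_) fun p hp => ?_
  · have := h0 p hp
    have : 0 ≤ Real.sqrt p / ((p : ℝ) - 1) := div_nonneg (Real.sqrt_nonneg _) (by linarith)
    linarith
  · have hp2 := h0 p hp
    have hp0 : (0 : ℝ) < p := by linarith
    have hs : 0 < Real.sqrt p := Real.sqrt_pos.2 hp0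
    have hss : Real.sqrt p * Real.sqrt p = p := Real.mul_self_sqrt hp0.le
    have h5 : Real.sqrt p / ((p : ℝ) - 1) ≤ 2 * (1 / Real.sqrt p) := by
      rw [mul_one_div, div_le_div_iff₀ (by linarith) hs, hss]
      linarith
    have h6 : 0 ≤ (1 / Real.sqrt p) ^ 2 := sq_nonneg _
    nlinarith

theorem a08_part (K h n : ℕ) (hK : 1 ≤ K) (hh : 1 ≤ h) :
    ∑ i ∈ range n, |mr (i + (K + 1)) ^ 2 * cR (i + (K + 1)) h| ≤
      1 / Real.sqrt K * (ks h ^ 2 * a08_C) := by
  classical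
  obtain ⟨Φ, hΦ⟩ : ∃ Φ : ℕ → ℕ × ℕ, ∀ i, Φ i = (Nat.gcd (i + (K + 1)) h,
      (i + (K + 1)) / Nat.gcd (i + (K + 1)) h) := ⟨_, fun _ => rfl⟩
  have h1 : ∑ i ∈ range n, |mr (i + (K + 1)) ^ 2 * cR (i + (K + 1)) h| ≤
      ∑ i ∈ (range n).filter (fun i => Squarefree (i + (K + 1))),
        1 / Real.sqrt K * (a08_w (Φ i).1 * a08_v (Φ i).2) := by
    rw [sum_filter]
    refine sum_le_sum fun i _ => ?_
    by_cases hsq : Squarefree (i + (K + 1))
    · rw [if_pos hsq, hΦ]
      exact a08_term K (i + (K + 1)) h hK (by omega) hsq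
    · rw [if_neg hsq]
      have h1 : mr (i + (K + 1)) = 0 := by
        unfold mr
        rw [ArithmeticFunction.moebius_eq_zero_of_not_squarefree hsq]
        simp
      rw [h1]
      simp
  refine h1.trans ?_
  rw [← mul_sum]
  refine mul_le_mul_of_nonneg_left ?_ (by positivity)
  have hinj : Set.InjOn Φ (↑((range n).filter (fun i => Squarefree (i + (K + 1)))) : Set ℕ) := by
    intro a _ b _ hab
    rw [hΦ, hΦ, Prod.mk.injEq] at hab
    have ha : Nat.gcd (a + (K + 1)) h * ((a + (K + 1)) / Nat.gcd (a + (K + 1)) h) = a + (K + 1) :=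
      Nat.mul_div_cancel' (Nat.gcd_dvd_left _ h)
    have hb : Nat.gcd (b + (K + 1)) h * ((b + (K + 1)) / Nat.gcd (b + (K + 1)) h) = b + (K + 1) :=
      Nat.mul_div_cancel' (Nat.gcd_dvd_left _ h)
    rw [hab.2, hab.1, hb] at ha
    omega
  have h2 : ∑ i ∈ (range n).filter (fun i => Squarefree (i + (K + 1))),
        a08_w (Φ i).1 * a08_v (Φ i).2 =
      ∑ x ∈ ((range n).filter (fun i => Squarefree (i + (K + 1)))).image Φ,
        a08_w x.1 * a08_v x.2 :=
    (sum_image (f := fun x : ℕ × ℕ => a08_w x.1 * a08_v x.2) hinj).symm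
  rw [h2]
  have h3 : ((range n).filter (fun i => Squarefree (i + (K + 1)))).image Φ ⊆
      (h.divisors.filter Squarefree) ×ˢ range (n + K + 1) := by
    intro x hx
    rw [mem_image] at hx
    obtain ⟨i, hi, rfl⟩ := hx
    rw [mem_filter, mem_range] at hi
    rw [hΦ, mem_product, mem_filter, Nat.mem_divisors, mem_range]
    refine ⟨⟨⟨Nat.gcd_dvd_right _ _, by omega⟩, hi.2.squarefree_of_dvd (Nat.gcd_dvd_left _ _)⟩, ?_⟩
    exact (Nat.div_le_self _ _).trans_lt (by omega)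
  refine (sum_le_sum_of_subset_of_nonneg h3 fun x _ _ =>
    mul_nonneg (a08_w0 _) (a08_v0 _)).trans ?_
  rw [sum_product]
  have h4 : ∑ x ∈ h.divisors.filter Squarefree, ∑ y ∈ range (n + K + 1), a08_w x * a08_v y =
      (∑ x ∈ h.divisors.filter Squarefree, a08_w x) * ∑ y ∈ range (n + K + 1), a08_v y := by
    rw [sum_mul_sum]
  rw [h4]
  exact mul_le_mul (a08_wsum h) (a08_vsum _) (sum_nonneg fun m _ => a08_v0 m) (sq_nonneg _)

theorem a08_sum (k : ℕ) (hk : 1 ≤ k) : Summable (fun r : ℕ => mr r ^ 2 * cR r k) := by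
  rw [← summable_nat_add_iff (1 + 1)]
  refine Summable.of_norm ?_
  refine summable_of_sum_range_le (c := 1 / Real.sqrt (1 : ℕ) * (ks k ^ 2 * a08_C))
    (fun _ => norm_nonneg _) fun n => ?_
  simp only [Real.norm_eq_abs]
  exact a08_part 1 k n le_rfl hk

theorem A08_pr : A08 := by
  refine ⟨a08_C + 1, by linarith [a08_C0], fun K k hK hk => ?_⟩
  have hs := a08_sum k hk
  have h1 := hs.sum_add_tsum_nat_add (K + 1)
  have h2 : SK K k = ∑ i ∈ range (K + 1), mr i ^ 2 * cR i k := by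
    unfold SK
    rw [sum_range_succ', Finset.range_eq_Ico, Finset.sum_Ico_add' (fun i => mr i ^ 2 * cR i k) 0 K 1]
    have h3 : mr 0 = 0 := by simp [mr]
    rw [h3]
    simp only [ne_eq, OfNat.ofNat_ne_zero, not_false_eq_true, zero_pow, zero_mul, add_zero,
      zero_add]
    refine sum_congr ?_ fun _ _ => rfl
    ext i
    simp only [mem_Icc, mem_Ico]
    omega
  have h4 : SG k - SK K k = ∑' i : ℕ, mr (i + (K + 1)) ^ 2 * cR (i + (K + 1)) k := by
    rw [h2]
    unfold SG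
    rw [← h1]
    ring
  rw [h4]
  have hs' : Summable (fun i : ℕ => |mr (i + (K + 1)) ^ 2 * cR (i + (K + 1)) k|) :=
    ((summable_nat_add_iff (K + 1)).2 hs).abs
  refine (Real.norm_eq_abs _ ▸ norm_tsum_le_tsum_norm (by simpa only [Real.norm_eq_abs] using hs')).trans ?_
  simp only [Real.norm_eq_abs]
  refine (Real.tsum_le_of_sum_range_le (fun _ => abs_nonneg _)
    fun n => a08_part K k n hK hk).trans ?_
  have h5 : 0 ≤ ks k ^ 2 / Real.sqrt K := div_nonneg (sq_nonneg _) (Real.sqrt_nonneg _)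
  calc 1 / Real.sqrt K * (ks k ^ 2 * a08_C) = a08_C * (ks k ^ 2 / Real.sqrt K) := by ring
    _ ≤ (a08_C + 1) * (ks k ^ 2 / Real.sqrt K) := by
        rw [add_mul]
        linarith
    _ = _ := by ring

end Pool.Agent.FGA
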