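import Pool.Agent.Lib_helper99.FGA.Wanted

/-! Block A12 of FGA (helper65); adapted from FGP_P14c (helper45). -/

set_option autoImplicit false

namespace Pool.Agent.FGA

open Finset Pool.Agent.Var35 Pool.Agent.Var73 Pool.Agent.PV Pool.Agent.FGP
open scoped ArithmeticFunction ArithmeticFunction.Moebius

/-- the local factor of `bM` -/
noncomputable def a12_loc (M p e : ℕ) : ℝ :=
  (if p ∣ M then (if e = 1 then -1 else 0) else
    if e = 1 then 2 / ((p : ℝ) - 2) else
    if e = 2 then -(p : ℝ) / ((p : ℝ) - 2) else 0)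

theorem a12_bb (M d : ℕ) : bM M d = ∏ p ∈ d.primeFactors, a12_loc M p (d.factorization p) := rfl

theorem a12_mul {M m n : ℕ} (h : m.Coprime n) : bM M (m * n) = bM M m * bM M n := by
  rw [a12_bb, a12_bb, a12_bb, h.primeFactors_mul, Finset.prod_union h.disjoint_primeFactors]
  congr 1
  · refine Finset.prod_congr rfl fun p hp => ?_
    rw [Nat.factorization_eq_of_coprime_left h (Nat.mem_primeFactors_iff_mem_primeFactorsList.mp hp)]
  · refine Finset.prod_congr rfl fun p hp => ?_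
    rw [Nat.factorization_eq_of_coprime_right h (Nat.mem_primeFactors_iff_mem_primeFactorsList.mp hp)]

theorem a12_one (M : ℕ) : bM M 1 = 1 := by simp [a12_bb]

theorem a12_pow (M : ℕ) {p : ℕ} (hp : p.Prime) {j : ℕ} (hj : j ≠ 0) :
    bM M (p ^ j) = a12_loc M p j := by
  rw [a12_bb, Nat.primeFactors_prime_pow hj hp, Finset.prod_singleton, hp.factorization_pow]
  simp

theorem a12_pow3 (M : ℕ) {p : ℕ} (hp : p.Prime) {j : ℕ} (hj : 3 ≤ j) : bM M (p ^ j) = 0 := by
  rw [a12_pow M hp (by omega), a12_loc]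
  split_ifs <;> first | rfl | omega

theorem a12_three {M p : ℕ} (hM : 2 ∣ M) (hp : p.Prime) (h2 : ¬ p ∣ M) : (3 : ℝ) ≤ p := by
  have h1 := hp.two_le
  have h3 : p ≠ 2 := fun h => h2 (h ▸ hM)
  have : 3 ≤ p := by omega
  exact_mod_cast this

noncomputable def a12_f (M d : ℕ) : ℝ := |bM M d| * (d : ℝ) ^ (-(3 / 4) : ℝ)

theorem a12_nonneg (M d : ℕ) : 0 ≤ a12_f M d :=
  mul_nonneg (abs_nonneg _) (Real.rpow_nonneg (Nat.cast_nonneg _) _)

theorem a12_f_one (M : ℕ) : a12_f M 1 = 1 := by simp [a12_f, a12_one]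

theorem a12_f_mul (M : ℕ) {a b : ℕ} (h : Nat.Coprime a b) :
    a12_f M (a * b) = a12_f M a * a12_f M b := by
  unfold a12_f
  rw [a12_mul h, abs_mul, Nat.cast_mul,
    Real.mul_rpow (Nat.cast_nonneg _) (Nat.cast_nonneg _)]
  ring

theorem a12_zero_pow (M p : ℕ) (hp : p.Prime) (k : ℕ) (hk : 3 ≤ k) : a12_f M (p ^ k) = 0 := by
  unfold a12_f
  rw [a12_pow3 M hp hk]
  simp

theorem a12_summ (M p : ℕ) (hp : p.Prime) : Summable (fun n : ℕ => ‖a12_f M (p ^ n)‖) := by
  apply summable_of_ne_finset_zero (s := Finset.range 3)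
  intro b hb
  rw [a12_zero_pow M p hp b (by simpa using hb), norm_zero]

theorem a12_tsum (M p : ℕ) (hp : p.Prime) :
    ∑' n : ℕ, a12_f M (p ^ n) = 1 + a12_f M (p ^ 1) + a12_f M (p ^ 2) := by
  rw [tsum_eq_sum (s := Finset.range 3)
    (fun b hb => a12_zero_pow M p hp b (by simpa using hb))]
  rw [Finset.sum_range_succ, Finset.sum_range_succ, Finset.sum_range_one, pow_zero, a12_f_one]

theorem a12_local_dvd (M p : ℕ) (hp : p.Prime) (hd : p ∣ M) :
    ∑' n : ℕ, a12_f M (p ^ n) ≤ 1 + 1 / Real.sqrt p := by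
  have hp2 : (2 : ℝ) ≤ p := by exact_mod_cast hp.two_le
  have hp0 : (0 : ℝ) < p := by linarith
  rw [a12_tsum M p hp]
  have h2 : a12_f M (p ^ 2) = 0 := by
    unfold a12_f
    rw [a12_pow M hp two_ne_zero, a12_loc, if_pos hd, if_neg (by norm_num)]
    simp
  have h1 : a12_f M (p ^ 1) ≤ 1 / Real.sqrt p := by
    unfold a12_f
    rw [a12_pow M hp one_ne_zero, a12_loc, if_pos hd, if_pos rfl, pow_one, abs_neg, abs_one,
      one_mul, Real.sqrt_eq_rpow, one_div, ← Real.rpow_neg hp0.le]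
    exact Real.rpow_le_rpow_of_exponent_le (by linarith) (by norm_num)
  linarith

theorem a12_local (M p : ℕ) (hM : 2 ∣ M) (hp : p.Prime) (hd : ¬ p ∣ M) :
    ∑' n : ℕ, a12_f M (p ^ n) ≤ 1 + 9 * (p : ℝ) ^ (-(3 / 2) : ℝ) := by
  have h3 := a12_three hM hp hd
  have hp0 : (0 : ℝ) < p := by linarith
  rw [a12_tsum M p hp]
  have hsq : (p : ℝ) ^ (-(3 / 2) : ℝ) = (p : ℝ) ^ (-(3 / 4) : ℝ) * (p : ℝ) ^ (-(3 / 4) : ℝ) := by
    rw [← Real.rpow_add hp0]
    norm_num
  have h34 : 0 < (p : ℝ) ^ (-(3 / 4) : ℝ) := Real.rpow_pos_of_pos hp0 _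
  have e2 : 1 / (p : ℝ) ≤ (p : ℝ) ^ (-(3 / 4) : ℝ) := by
    rw [one_div, ← Real.rpow_neg_one]
    exact Real.rpow_le_rpow_of_exponent_le (by linarith) (by norm_num)
  have h1 : a12_f M (p ^ 1) ≤ 6 * (p : ℝ) ^ (-(3 / 2) : ℝ) := by
    unfold a12_f
    rw [a12_pow M hp one_ne_zero, pow_one, hsq]
    have e3 : |a12_loc M p 1| ≤ 6 * (p : ℝ) ^ (-(3 / 4) : ℝ) := by
      refine le_trans ?_ (mul_le_mul_of_nonneg_left e2 (by norm_num : (0 : ℝ) ≤ 6))
      unfold a12_loc
      rw [if_neg hd, if_pos rfl, abs_of_pos (by apply div_pos two_pos; linarith),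
        div_le_iff₀ (by linarith)]
      field_simp
      linarith
    calc |a12_loc M p 1| * (p : ℝ) ^ (-(3 / 4) : ℝ)
        ≤ (6 * (p : ℝ) ^ (-(3 / 4) : ℝ)) * (p : ℝ) ^ (-(3 / 4) : ℝ) :=
          mul_le_mul_of_nonneg_right e3 h34.le
      _ = _ := by ring
  have h2 : a12_f M (p ^ 2) ≤ 3 * (p : ℝ) ^ (-(3 / 2) : ℝ) := by
    unfold a12_f
    rw [a12_pow M hp two_ne_zero]
    have e0 : ((p ^ 2 : ℕ) : ℝ) ^ (-(3 / 4) : ℝ) = (p : ℝ) ^ (-(3 / 2) : ℝ) := by
      rw [Nat.cast_pow, ← Real.rpow_natCast, ← Real.rpow_mul hp0.le]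
      norm_num
    rw [e0]
    apply mul_le_mul_of_nonneg_right _ (Real.rpow_nonneg hp0.le _)
    unfold a12_loc
    rw [if_neg hd, if_neg (by norm_num), if_pos rfl, neg_div, abs_neg,
      abs_of_pos (by apply div_pos hp0; linarith), div_le_iff₀ (by linarith)]
    linarith
  linarith

theorem a12_sumP : Summable (fun n : ℕ => (n : ℝ) ^ (-(3 / 2) : ℝ)) :=
  Real.summable_nat_rpow.2 (by norm_num)

theorem a12_ks_pos (M : ℕ) : 0 < ks M := by
  unfold ks
  exact prod_pos fun p _ => by positivity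

theorem a12_bound (M : ℕ) (hM0 : 1 ≤ M) (hM : 2 ∣ M) (u : Finset ℕ) :
    ∑ d ∈ u, a12_f M d ≤ Real.exp (9 * ∑' n : ℕ, (n : ℝ) ^ (-(3 / 2) : ℝ)) * ks M := by
  classical
  set N := u.sup id + 1 with hN
  set s := Finset.range N with hs
  obtain ⟨hsum, hhas⟩ := EulerProduct.summable_and_hasSum_factoredNumbers_prod_filter_prime_tsum
    (a12_f_one M) (fun h => a12_f_mul M h) (fun hp => a12_summ M _ hp) s
  have hmem : ∀ d ∈ u.filter (· ≠ 0), d ∈ Nat.factoredNumbers s := by
    intro d hd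
    rw [Finset.mem_filter] at hd
    rw [Nat.mem_factoredNumbers]
    refine ⟨hd.2, fun p hp => ?_⟩
    rw [hs, Finset.mem_range, hN]
    have h1 : p ≤ d := Nat.le_of_dvd (Nat.pos_of_ne_zero hd.2) (Nat.dvd_of_mem_primeFactorsList hp)
    have h2 : d ≤ u.sup id := Finset.le_sup (f := id) hd.1
    omega
  have h0 : ∑ d ∈ u, a12_f M d = ∑ d ∈ u.filter (· ≠ 0), a12_f M d := by
    rw [Finset.sum_filter]
    refine Finset.sum_congr rfl fun d _ => ?_
    by_cases hd : d = 0
    · subst hd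
      simp [a12_f, Real.zero_rpow]
    · rw [if_pos hd]
  have h1 : ∑ d ∈ u.filter (· ≠ 0), a12_f M d =
      ∑ m ∈ (u.filter (· ≠ 0)).subtype (fun d => d ∈ Nat.factoredNumbers s), a12_f M m := by
    rw [Finset.sum_subtype_of_mem (a12_f M) hmem]
  have h2 : ∑ m ∈ (u.filter (· ≠ 0)).subtype (fun d => d ∈ Nat.factoredNumbers s), a12_f M m ≤
      ∏ p ∈ s with p.Prime, ∑' n : ℕ, a12_f M (p ^ n) :=
    sum_le_hasSum _ (fun m _ => a12_nonneg M _) hhas
  have h3 : ∏ p ∈ s with p.Prime, ∑' n : ℕ, a12_f M (p ^ n) ≤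
      ∏ p ∈ s with p.Prime, Real.exp (9 * (p : ℝ) ^ (-(3 / 2) : ℝ)) *
        (if p ∣ M then (1 + 1 / Real.sqrt p) else 1) := by
    apply Finset.prod_le_prod
    · intro p _
      exact tsum_nonneg fun n => a12_nonneg M _
    · intro p hp
      rw [Finset.mem_filter] at hp
      have hx : 0 ≤ 9 * (p : ℝ) ^ (-(3 / 2) : ℝ) := by positivity
      by_cases hd : p ∣ M
      · rw [if_pos hd]
        refine (a12_local_dvd M p hp.2 hd).trans ?_
        have h4 := Real.one_le_exp hx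
        have h5 : (0 : ℝ) ≤ 1 + 1 / Real.sqrt p := by positivity
        nlinarith
      · rw [if_neg hd, mul_one]
        refine (a12_local M p hM hp.2 hd).trans ?_
        have := Real.add_one_le_exp (9 * (p : ℝ) ^ (-(3 / 2) : ℝ))
        linarith
  have h4 : ∏ p ∈ s with p.Prime, (if p ∣ M then (1 + 1 / Real.sqrt p) else 1) ≤ ks M := by
    unfold ks
    rw [← Finset.prod_filter]
    refine Finset.prod_le_prod_of_subset_of_one_le ?_ (fun p _ => by positivity) ?_
    · intro p hp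
      rw [mem_filter, mem_filter] at hp
      exact Nat.mem_primeFactors.2 ⟨hp.1.2, hp.2, by omega⟩
    · intro p _ _
      have : (0 : ℝ) ≤ 1 / Real.sqrt p := by positivity
      linarith
  rw [h0, h1]
  refine h2.trans (h3.trans ?_)
  rw [Finset.prod_mul_distrib, ← Real.exp_sum]
  refine mul_le_mul ?_ h4 (prod_nonneg fun p _ => by split_ifs <;> positivity) (Real.exp_pos _).le
  apply Real.exp_le_exp.2
  rw [← Finset.mul_sum]
  apply mul_le_mul_of_nonneg_left _ (by norm_num)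
  exact a12_sumP.sum_le_tsum _ (fun n _ => Real.rpow_nonneg (Nat.cast_nonneg _) _)

theorem A12_pr : A12 := by
  refine ⟨⟨Real.exp (9 * ∑' n : ℕ, (n : ℝ) ^ (-(3 / 2) : ℝ)), Real.exp_pos _, fun M hM0 hM => ?_⟩,
    fun C2 hC2 M hM0 => ?_⟩
  · exact ⟨summable_of_sum_le (a12_nonneg M) (a12_bound M hM0 hM),
      Real.tsum_le_of_sum_le (a12_nonneg M) (a12_bound M hM0 hM)⟩
  · have h3 : ∀ p ∈ M.primeFactors.erase 2, (3 : ℝ) ≤ p := by
      intro p hp
      rw [mem_erase] at hp
      have h1 := (Nat.prime_of_mem_primeFactors hp.2).two_le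
      have : 3 ≤ p := by omega
      exact_mod_cast this
    unfold GM
    constructor
    · refine mul_pos (by positivity) (prod_pos fun p hp => ?_)
      have := h3 p hp
      exact div_pos (by linarith) (by linarith)
    · refine mul_le_mul_of_nonneg_left ?_ (by positivity)
      have h4 : ∏ p ∈ M.primeFactors.erase 2, (((p : ℝ) - 1) / ((p : ℝ) - 2)) ≤
          ∏ p ∈ M.primeFactors.erase 2, (1 + 1 / Real.sqrt p) ^ 3 := by
        refine prod_le_prod (fun p hp => ?_) fun p hp => ?_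
        · have := h3 p hp
          exact (div_pos (by linarith) (by linarith)).le
        · have h5 := h3 p hp
          have hp0 : (0 : ℝ) < p := by linarith
          have hx : (0 : ℝ) ≤ 1 / Real.sqrt p := by positivity
          have hxx : 1 / Real.sqrt p * (1 / Real.sqrt p) = 1 / p := by
            rw [div_mul_div_comm, one_mul, Real.mul_self_sqrt hp0.le]
          have h6 : ((p : ℝ) - 1) / ((p : ℝ) - 2) ≤ 1 + 3 * (1 / p) := by
            rw [div_le_iff₀ (by linarith)]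
            field_simp
            nlinarith
          refine h6.trans ?_
          rw [← hxx]
          have h7 : 0 ≤ (1 / Real.sqrt p) ^ 3 := by positivity
          nlinarith
      refine h4.trans ?_
      rw [prod_pow]
      refine pow_le_pow_left₀ (prod_nonneg fun p _ => by positivity) ?_ 3
      unfold ks
      refine Finset.prod_le_prod_of_subset_of_one_le (erase_subset _ _)
        (fun p _ => by positivity) ?_
      intro p _ _
      have : (0 : ℝ) ≤ 1 / Real.sqrt p := by positivity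
      linarith

end Pool.Agent.FGA
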