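import Pool.Agent.Lib_helper99.FGA.WantedE

/-! Block A15E of FGA (helper65): the main term for one modulus, effective form. -/

set_option autoImplicit false

namespace Pool.Agent.FGA

open Finset Pool.Agent.Var35 Pool.Agent.Var73 Pool.Agent.PV Pool.Agent.FGP
open scoped ArithmeticFunction ArithmeticFunction.Moebius

theorem a15e_fac (p : ℕ) : (1 : ℝ) ≤ 1 + 1 / Real.sqrt p := by
  have : (0 : ℝ) ≤ 1 / Real.sqrt p := by positivity
  linarith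

theorem a15e_one (s : Finset ℕ) : (1 : ℝ) ≤ ∏ p ∈ s, (1 + 1 / Real.sqrt p) := by
  have h := Finset.prod_le_prod_of_subset_of_one_le (f := fun p : ℕ => 1 + 1 / Real.sqrt p)
    (empty_subset s) (fun p _ => zero_le_one.trans (a15e_fac p)) (fun p _ _ => a15e_fac p)
  simpa using h

theorem a15e_ks_one (n : ℕ) : 1 ≤ ks n := a15e_one _

theorem a15e_ks_mul (a b : ℕ) (ha : a ≠ 0) (hb : b ≠ 0) : ks (a * b) ≤ ks a * ks b := by
  classical
  unfold ks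
  rw [Nat.primeFactors_mul ha hb, ← prod_union_inter]
  exact le_mul_of_one_le_right (prod_nonneg fun p _ => zero_le_one.trans (a15e_fac p)) (a15e_one _)

theorem a15e_ks_le (k : ℕ) (hk : 1 ≤ k) : ks k ≤ k := by
  unfold ks
  calc ∏ p ∈ k.primeFactors, (1 + 1 / Real.sqrt p) ≤ ∏ p ∈ k.primeFactors, (p : ℝ) := by
        refine prod_le_prod (fun p _ => zero_le_one.trans (a15e_fac p)) fun p hp => ?_
        have h2 : (2 : ℝ) ≤ p := by exact_mod_cast (Nat.prime_of_mem_primeFactors hp).two_le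
        have h3 : 1 ≤ Real.sqrt p := Real.one_le_sqrt.2 (by linarith)
        have h4 : 1 / Real.sqrt p ≤ 1 := by
          rw [div_le_one (by linarith)]
          exact h3
        linarith
    _ = ((∏ p ∈ k.primeFactors, p : ℕ) : ℝ) := by push_cast; rfl
    _ ≤ k := by exact_mod_cast Nat.le_of_dvd hk (Nat.prod_primeFactors_dvd _)

theorem a15e_even (N : ℕ) (h : ℕ → ℝ) :
    ∑ k ∈ Icc 1 N, (if 2 ∣ k then h k else 0) = ∑ m ∈ Icc 1 (N / 2), h (2 * m) := by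
  rw [← sum_filter]
  symm
  refine sum_bij (fun m _ => 2 * m) ?_ ?_ ?_ ?_
  · intro m hm
    rw [mem_Icc] at hm
    rw [mem_filter, mem_Icc]
    exact ⟨⟨by omega, by omega⟩, Dvd.intro m rfl⟩
  · intro a _ b _ hab
    have : 2 * a = 2 * b := hab
    omega
  · intro k hk
    rw [mem_filter, mem_Icc] at hk
    obtain ⟨⟨h1, h2⟩, c, hc⟩ := hk
    refine ⟨c, ?_, hc.symm⟩
    rw [mem_Icc]
    omega
  · intro m _
    rfl

theorem a15e_CQ (Q : ℕ) (_hQ : 1 ≤ Q) (h2 : ¬ 2 ∣ Q) : HC.CQ (2 * Q) = HC.CQ Q + Real.log 2 := by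
  unfold HC.CQ
  rw [Nat.primeFactors_mul (by norm_num) (by omega), Nat.Prime.primeFactors Nat.prime_two,
    sum_union]
  · rw [sum_singleton]
    push_cast
    norm_num
    ring
  · rw [disjoint_singleton_left]
    intro h
    exact h2 (Nat.dvd_of_mem_primeFactors h)

theorem a15e_tot (Q : ℕ) (h2 : ¬ 2 ∣ Q) : Nat.totient (2 * Q) = Nat.totient Q := by
  rw [Nat.totient_mul ((Nat.prime_two.coprime_iff_not_dvd).2 h2), Nat.totient_two, one_mul]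

/-- the replacement of `SK` by `SG` -/
theorem a15e_SG (C8 : ℝ) (hC8 : 0 < C8)
    (h8 : ∀ K h : ℕ, 1 ≤ K → 1 ≤ h → |SG h - SK K h| ≤ C8 * ks h ^ 2 / Real.sqrt K)
    (N K Q : ℕ) (hQ : 1 ≤ Q) (z : ℝ) (hz : z = (N : ℝ) / Q)
    (hz1 : 1 ≤ z) (hK : N ^ 16 ≤ Q ^ 16 * K) :
    |2 * ∑ k ∈ Icc 1 (N / Q), SK K (k * Q) * ((N : ℝ) - k * Q) -
      2 * ∑ k ∈ Icc 1 (N / Q), SG (k * Q) * ((N : ℝ) - k * Q)| ≤
      2 * C8 * (1 / z) * (N * ks Q ^ 4) := by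
  have hQ0 : (0 : ℝ) < Q := by exact_mod_cast hQ
  have hz0 : 0 < z := by linarith
  have hN0 : (0 : ℝ) ≤ N := Nat.cast_nonneg N
  have hzK : z ^ 16 ≤ K := by
    rw [hz, div_pow, div_le_iff₀ (by positivity)]
    have : ((N ^ 16 : ℕ) : ℝ) ≤ ((Q ^ 16 * K : ℕ) : ℝ) := by exact_mod_cast hK
    push_cast at this
    linarith
  have hK1 : (1 : ℝ) ≤ K := (one_le_pow₀ hz1).trans hzK
  have hK1' : 1 ≤ K := by exact_mod_cast hK1
  have hsq : z ^ 8 ≤ Real.sqrt K := by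
    refine Real.le_sqrt_of_sq_le ?_
    calc (z ^ 8) ^ 2 = z ^ 16 := by ring
      _ ≤ (K : ℝ) := hzK
  have hfl : (((N / Q : ℕ)) : ℝ) ≤ z := by
    rw [hz]
    exact Nat.cast_div_le
  have hk1 := a15e_ks_one Q
  have hk0 : 0 < ks Q := by linarith
  rw [← mul_sub, ← sum_sub_distrib, abs_mul, abs_of_pos (by norm_num : (0 : ℝ) < 2)]
  have e3 : ∀ k ∈ Icc 1 (N / Q), |SK K (k * Q) * ((N : ℝ) - k * Q) -
      SG (k * Q) * ((N : ℝ) - k * Q)| ≤ C8 * (z * ks Q) ^ 2 / z ^ 8 * N := by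
    intro k hk
    rw [mem_Icc] at hk
    have hkz : (k : ℝ) ≤ z := le_trans (by exact_mod_cast hk.2) hfl
    have hkQ : (k : ℝ) * Q ≤ N := by
      rw [hz, le_div_iff₀ hQ0] at hkz
      exact hkz
    have hkQ0 : (0 : ℝ) ≤ (k : ℝ) * Q := by positivity
    have e4 := h8 K (k * Q) hK1' (Nat.mul_pos hk.1 hQ)
    have e5 : ks (k * Q) ≤ z * ks Q :=
      (a15e_ks_mul k Q (by omega) (by omega)).trans
        (mul_le_mul_of_nonneg_right ((a15e_ks_le k hk.1).trans hkz) hk0.le)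
    rw [← sub_mul, abs_mul, abs_of_nonneg (by linarith : 0 ≤ (N : ℝ) - k * Q), abs_sub_comm]
    refine mul_le_mul (e4.trans ?_) (by linarith) (by linarith) (by positivity)
    have e6 : ks (k * Q) ^ 2 ≤ (z * ks Q) ^ 2 :=
      pow_le_pow_left₀ (zero_le_one.trans (a15e_ks_one _)) e5 2
    gcongr
  refine (mul_le_mul_of_nonneg_left ((abs_sum_le_sum_abs _ _).trans (sum_le_sum e3))
    (by norm_num)).trans ?_
  rw [sum_const, Nat.card_Icc, nsmul_eq_mul, Nat.add_sub_cancel]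
  calc 2 * ((((N / Q : ℕ)) : ℝ) * (C8 * (z * ks Q) ^ 2 / z ^ 8 * N))
      ≤ 2 * (z * (C8 * (z * ks Q) ^ 2 / z ^ 8 * N)) :=
        mul_le_mul_of_nonneg_left (mul_le_mul_of_nonneg_right hfl (by positivity)) (by norm_num)
    _ = 2 * C8 * (1 / z) * (1 / z ^ 4) * (N * ks Q ^ 2) := by field_simp
    _ ≤ 2 * C8 * (1 / z) * 1 * (N * ks Q ^ 4) := by
        have h3 : 1 / z ^ 4 ≤ 1 := by
          rw [div_le_one (by positivity)]
          exact one_le_pow₀ hz1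
        have h4 : ks Q ^ 2 ≤ ks Q ^ 4 := pow_le_pow_right₀ hk1 (by norm_num)
        gcongr
    _ = _ := by ring

theorem a15e_evenQ (C2 : ℝ) (Q N : ℕ) (z : ℝ) (hz : z = (N : ℝ) / Q) (hQ : 1 ≤ Q)
    (h9 : ∀ k : ℕ, 1 ≤ k → SG (k * Q) = GM C2 Q * FM Q k) :
    2 * ∑ k ∈ Icc 1 (N / Q), SG (k * Q) * ((N : ℝ) - k * Q) =
      2 * Q * (GM C2 Q * ∑ k ∈ Icc 1 ⌊z⌋₊, (z - k) * FM Q k) := by
  have hQ0 : (0 : ℝ) < Q := by exact_mod_cast hQ
  have h1 : ∑ k ∈ Icc 1 (N / Q), SG (k * Q) * ((N : ℝ) - k * Q) =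
      Q * (GM C2 Q * ∑ k ∈ Icc 1 (N / Q), ((N : ℝ) / Q - k) * FM Q k) := by
    rw [mul_sum, mul_sum]
    refine sum_congr rfl fun k hk => ?_
    rw [mem_Icc] at hk
    rw [h9 k hk.1]
    field_simp
  rw [hz, Nat.floor_div_eq_div, h1]
  ring

theorem a15e_oddQ (C2 : ℝ) (Q N : ℕ) (z : ℝ) (hz : z = (N : ℝ) / Q) (hQ : 1 ≤ Q)
    (h9 : ∀ k : ℕ, 1 ≤ k →
      SG (k * Q) = if 2 ∣ k then GM C2 (2 * Q) * FM (2 * Q) (k / 2) else 0) :
    2 * ∑ k ∈ Icc 1 (N / Q), SG (k * Q) * ((N : ℝ) - k * Q) =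
      4 * Q * (GM C2 (2 * Q) * ∑ k ∈ Icc 1 ⌊z / 2⌋₊, (z / 2 - k) * FM (2 * Q) k) := by
  have hQ0 : (0 : ℝ) < Q := by exact_mod_cast hQ
  have hfl : ⌊z / 2⌋₊ = N / Q / 2 := by
    have h1 := Nat.floor_div_natCast z 2
    rw [hz, Nat.floor_div_eq_div, ← hz] at h1
    simpa using h1
  have h1 : ∑ k ∈ Icc 1 (N / Q), SG (k * Q) * ((N : ℝ) - k * Q) =
      ∑ k ∈ Icc 1 (N / Q), (if 2 ∣ k then
        GM C2 (2 * Q) * FM (2 * Q) (k / 2) * ((N : ℝ) - k * Q) else 0) := by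
    refine sum_congr rfl fun k hk => ?_
    rw [mem_Icc] at hk
    rw [h9 k hk.1]
    split_ifs
    · rfl
    · rw [zero_mul]
  have h2 : ∑ m ∈ Icc 1 (N / Q / 2), GM C2 (2 * Q) * FM (2 * Q) (2 * m / 2) *
        ((N : ℝ) - ((2 * m : ℕ) : ℝ) * Q) =
      2 * Q * (GM C2 (2 * Q) * ∑ k ∈ Icc 1 (N / Q / 2), ((N : ℝ) / Q / 2 - k) *
        FM (2 * Q) k) := by
    rw [mul_sum, mul_sum]
    refine sum_congr rfl fun m hm => ?_
    rw [show 2 * m / 2 = m by omega]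
    push_cast
    field_simp
  rw [h1, a15e_even (N / Q) (fun k => GM C2 (2 * Q) * FM (2 * Q) (k / 2) * ((N : ℝ) - k * Q)),
    hfl, h2, hz]
  ring

theorem A15E_pr (h14a : FGP.W14a) (h08 : A08) (h09 : A09) (h14 : A14E) : A15E := by
  obtain ⟨-, C2, hC2, hP, hSG⟩ := h14a
  obtain ⟨C8, hC8, h8⟩ := h08
  obtain ⟨h9e, h9o⟩ := h09 C2 hSG
  obtain ⟨C, hC, h14⟩ := h14 C2 ⟨hC2, hP⟩
  refine ⟨2 * C8 + 64 * C, by positivity, fun N K Q hQ hN hK => ?_⟩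
  have hQ0 : (0 : ℝ) < Q := by exact_mod_cast hQ
  have hN1 : (Q : ℝ) ≤ N := by exact_mod_cast hN
  have hN0 : (0 : ℝ) < N := by linarith
  obtain ⟨z, hz⟩ : ∃ z : ℝ, z = (N : ℝ) / Q := ⟨_, rfl⟩
  have hz1 : 1 ≤ z := by
    rw [hz, le_div_iff₀ hQ0, one_mul]
    exact hN1
  have hz0 : 0 < z := by linarith
  have hNz : (N : ℝ) = z * Q := by
    rw [hz]
    field_simp
  -- the power of `z`
  obtain ⟨w, hw⟩ : ∃ w : ℝ, w = ((Q : ℝ) / N) ^ (1 / 4 : ℝ) := ⟨_, rfl⟩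
  have hQN : (Q : ℝ) / N = z⁻¹ := by rw [hz, inv_div]
  have hw0 : 0 < w := by
    rw [hw]
    exact Real.rpow_pos_of_pos (by positivity) _
  have hwz : w = z ^ (-(1 / 4) : ℝ) := by
    rw [hw, hQN, Real.inv_rpow hz0.le, Real.rpow_neg hz0.le]
  have hw1 : 1 / z ≤ w := by
    rw [hwz, one_div, ← Real.rpow_neg_one]
    exact Real.rpow_le_rpow_of_exponent_le hz1 (by norm_num)
  have hz34 : z ^ (3 / 4 : ℝ) = z * w := by
    rw [hwz]
    conv_rhs => rw [← Real.rpow_one z, ← Real.rpow_mul hz0.le, ← Real.rpow_add hz0]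
    norm_num
  have e1 := a15e_SG C8 hC8 h8 N K Q hQ z hz hz1 hK
  have hk1 := a15e_ks_one Q
  have hk0 : 0 < ks Q := by linarith
  have hk4 : 0 < ks Q ^ 4 := by positivity
  have hphi : (0 : ℝ) < Nat.totient Q := by exact_mod_cast Nat.totient_pos.2 hQ
  have e1' : 2 * C8 * (1 / z) * (N * ks Q ^ 4) ≤ 2 * C8 * (N * w * ks Q ^ 4) := by
    calc 2 * C8 * (1 / z) * (N * ks Q ^ 4) ≤ 2 * C8 * w * (N * ks Q ^ 4) := by gcongr
      _ = _ := by ring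
  have e2 : |2 * ∑ k ∈ Icc 1 (N / Q), SG (k * Q) * ((N : ℝ) - k * Q) -
      ((N : ℝ) ^ 2 / Nat.totient Q - N * (Real.log ((N : ℝ) / Q) + HC.CQ Q - 1))| ≤
      64 * C * (N * w * ks Q ^ 4) := by
    by_cases h2 : 2 ∣ Q
    · rw [a15e_evenQ C2 Q N z hz hQ (fun k hk => h9e Q k hQ h2 hk)]
      have e3 := h14 Q z hQ h2 hz0
      have e5 : ((N : ℝ) ^ 2 / Nat.totient Q - N * (Real.log ((N : ℝ) / Q) + HC.CQ Q - 1)) =
          2 * Q * ((Q / Nat.totient Q : ℝ) * z ^ 2 / 2 - z / 2 * (Real.log z + HC.CQ Q - 1)) := by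
        rw [← hz, hNz]
        field_simp
      rw [e5, ← mul_sub, abs_mul, abs_of_pos (by positivity : (0 : ℝ) < 2 * Q)]
      calc 2 * (Q : ℝ) * _ ≤ 2 * Q * (C * z ^ (3 / 4 : ℝ) * ks Q ^ 4) :=
            mul_le_mul_of_nonneg_left e3 (by positivity)
        _ = 2 * C * (z * Q * w * ks Q ^ 4) := by rw [hz34]; ring
        _ ≤ 64 * C * (z * Q * w * ks Q ^ 4) := by
            refine mul_le_mul_of_nonneg_right (by linarith) (by positivity)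
        _ = _ := by rw [hNz]
    · rw [a15e_oddQ C2 Q N z hz hQ (fun k hk => h9o Q k hQ h2 hk)]
      have e3 := h14 (2 * Q) (z / 2) (by omega) (Dvd.intro Q rfl) (by positivity)
      have e4 : (z / 2) ^ (3 / 4 : ℝ) ≤ z ^ (3 / 4 : ℝ) :=
        Real.rpow_le_rpow (by positivity) (by linarith) (by norm_num)
      have e4' : 0 ≤ (z / 2) ^ (3 / 4 : ℝ) := Real.rpow_nonneg (by positivity) _
      have hks : ks (2 * Q) ^ 4 ≤ 16 * ks Q ^ 4 := by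
        have h3 : ks (2 * Q) ≤ 2 * ks Q :=
          (a15e_ks_mul 2 Q (by norm_num) (by omega)).trans
            (mul_le_mul_of_nonneg_right (by exact_mod_cast a15e_ks_le 2 (by norm_num)) hk0.le)
        calc ks (2 * Q) ^ 4 ≤ (2 * ks Q) ^ 4 :=
              pow_le_pow_left₀ (zero_le_one.trans (a15e_ks_one _)) h3 4
          _ = _ := by ring
      have hks0 : 0 ≤ ks (2 * Q) ^ 4 := pow_nonneg (zero_le_one.trans (a15e_ks_one _)) 4
      have e5 : ((N : ℝ) ^ 2 / Nat.totient Q - N * (Real.log ((N : ℝ) / Q) + HC.CQ Q - 1)) =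
          4 * Q * ((((2 * Q : ℕ) : ℝ) / Nat.totient (2 * Q) : ℝ) * (z / 2) ^ 2 / 2 -
            z / 2 / 2 * (Real.log (z / 2) + HC.CQ (2 * Q) - 1)) := by
        rw [← hz, hNz, a15e_CQ Q hQ h2, a15e_tot Q h2, Real.log_div hz0.ne' (by norm_num)]
        push_cast
        field_simp
        ring
      rw [e5, ← mul_sub, abs_mul, abs_of_pos (by positivity : (0 : ℝ) < 4 * Q)]
      calc 4 * (Q : ℝ) * _ ≤ 4 * Q * (C * (z / 2) ^ (3 / 4 : ℝ) * ks (2 * Q) ^ 4) :=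
            mul_le_mul_of_nonneg_left e3 (by positivity)
        _ ≤ 4 * Q * (C * z ^ (3 / 4 : ℝ) * (16 * ks Q ^ 4)) := by gcongr
        _ = 64 * C * (z * Q * w * ks Q ^ 4) := by rw [hz34]; ring
        _ = _ := by rw [hNz]
  have e3 := abs_sub_le (2 * ∑ k ∈ Icc 1 (N / Q), SK K (k * Q) * ((N : ℝ) - k * Q))
    (2 * ∑ k ∈ Icc 1 (N / Q), SG (k * Q) * ((N : ℝ) - k * Q))
    ((N : ℝ) ^ 2 / Nat.totient Q - N * (Real.log ((N : ℝ) / Q) + HC.CQ Q - 1))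
  rw [← hw]
  calc _ ≤ 2 * C8 * (N * w * ks Q ^ 4) + 64 * C * (N * w * ks Q ^ 4) := by linarith
    _ = (2 * C8 + 64 * C) * N * w * ks Q ^ 4 := by ring

end Pool.Agent.FGA
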